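import Mathlib

/-!
# The Tukey bound fails for free topological groups over omega-narrow uniform spaces
-/

set_option autoImplicit false

namespace Pool.Agent.Results.MP_849c2a_gt.NotTukeyBelow

open Filter Topology Uniformity

/-- Tukey reducibility `P ≤_T Q`: there is a map `Q → P` sending cofinal subsets of `Q` to cofinal
subsets of `P`. -/
def TukeyLE (P Q : Type) [Preorder P] [Preorder Q] : Prop :=
  ∃ φ : Q → P, ∀ A : Set Q, IsCofinal A → IsCofinal (φ '' A)

/-- The symmetric entourages of the uniform space `X`, ordered by reverse inclusion. -/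
abbrev Entourages (X : Type) [UniformSpace X] : Type :=
  {V : Set (X × X) // V ∈ 𝓤 X ∧ ∀ x y, (x, y) ∈ V → (y, x) ∈ V}ᵒᵈ

/-- The neighbourhoods of the identity of `G`, ordered by reverse inclusion. -/
abbrev NhdsOne (G : Type) [Group G] (t : TopologicalSpace G) : Type :=
  {W : Set G // W ∈ @nhds G t 1}ᵒᵈ

/-- `X` is `ω`-narrow: for every entourage `V` countably many balls `B(a, V)` cover `X`. -/
def OmegaNarrow (X : Type) [UniformSpace X] : Prop :=
  ∀ V ∈ 𝓤 X, ∃ A : Set X, A.Countable ∧ ∀ x, ∃ a ∈ A, (a, x) ∈ V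

/-- `f` is uniformly continuous from the uniform space `X` to the group `G` with topology `t`,
where `G` carries its two-sided uniformity. -/
def TwoSidedUC {X : Type} [UniformSpace X] {G : Type} [Group G] (t : TopologicalSpace G)
    (f : X → G) : Prop :=
  ∀ W ∈ @nhds G t 1, ∃ V ∈ 𝓤 X, ∀ x y, (x, y) ∈ V → (f x)⁻¹ * f y ∈ W ∧ f x * (f y)⁻¹ ∈ W

/-- The free group on `X` with the topology `t` is the free topological group over the uniform
space `X`: `t` is a group topology, the inclusion of `X` is uniformly continuous, and every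
uniformly continuous map from `X` to a topological group extends to a continuous homomorphism. -/
structure IsFreeTopologicalGroup (X : Type) [UniformSpace X] (t : TopologicalSpace (FreeGroup X)) :
    Prop where
  isTopologicalGroup : @IsTopologicalGroup (FreeGroup X) t _
  uc_of : TwoSidedUC t (FreeGroup.of : X → FreeGroup X)
  extend : ∀ (G : Type) [Group G] [tG : TopologicalSpace G] [IsTopologicalGroup G] (f : X → G),
    TwoSidedUC tG f → @Continuous _ _ t tG (FreeGroup.lift f)

/-! ### Existence of the free topological group -/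

theorem twoSidedUC_iff {X : Type} [UniformSpace X] {G : Type} [Group G] (t : TopologicalSpace G)
    (f : X → G) : TwoSidedUC t f ↔
      Tendsto (fun p : X × X => (f p.1)⁻¹ * f p.2) (𝓤 X) (@nhds G t 1) ∧
      Tendsto (fun p : X × X => f p.1 * (f p.2)⁻¹) (𝓤 X) (@nhds G t 1) := by
  constructor
  · intro h
    constructor
    · intro W hW
      obtain ⟨V, hV, h'⟩ := h W hW
      rw [mem_map]
      refine mem_of_superset hV ?_
      rintro ⟨x, y⟩ hp
      exact (h' x y hp).1
    · intro W hW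
      obtain ⟨V, hV, h'⟩ := h W hW
      rw [mem_map]
      refine mem_of_superset hV ?_
      rintro ⟨x, y⟩ hp
      exact (h' x y hp).2
  · rintro ⟨h1, h2⟩ W hW
    exact ⟨_, inter_mem (h1 hW) (h2 hW), fun x y hxy => ⟨hxy.1, hxy.2⟩⟩

theorem exists_free (X : Type) [UniformSpace X] :
    ∃ t : TopologicalSpace (FreeGroup X), IsFreeTopologicalGroup X t := by
  let S : Set (TopologicalSpace (FreeGroup X)) :=
    {t | @IsTopologicalGroup (FreeGroup X) t _ ∧ TwoSidedUC t (FreeGroup.of : X → FreeGroup X)}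
  refine ⟨sInf S, topologicalGroup_sInf (fun t ht => ht.1), ?_, ?_⟩
  · rw [twoSidedUC_iff, nhds_sInf]
    simp only [tendsto_iInf]
    exact ⟨fun t ht => ((twoSidedUC_iff _ _).1 ht.2).1, fun t ht => ((twoSidedUC_iff _ _).1 ht.2).2⟩
  · intro G _ tG _ f hf
    rw [continuous_iff_le_induced]
    refine sInf_le ⟨topologicalGroup_induced (FreeGroup.lift f), ?_⟩
    rw [twoSidedUC_iff] at hf ⊢
    rw [nhds_induced]
    simp only [tendsto_comap_iff, map_one]
    constructor
    · convert hf.1 using 1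
      funext p
      simp
    · convert hf.2 using 1
      funext p
      simp

/-! ### The example -/

/-- The index set: functions on pairs of elements of `ω^ω`. -/
abbrev Y : Type := ((ℕ → ℕ) × (ℕ → ℕ)) → ℕ

/-- A set of cardinality larger than `2^𝔠`. -/
abbrev L : Type := Set Y

/-- The underlying set of the example. -/
abbrev X : Type := ℕ ⊕ L

/-- The basic entourages. -/
def E (n : ℕ) (A : Set L) : Set (X × X) :=
  {p | p.1 = p.2 ∨ (∃ i j : ℕ, p = (Sum.inl i, Sum.inl j) ∧ n ≤ i ∧ n ≤ j) ∨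
    (∃ x y : L, p = (Sum.inr x, Sum.inr y) ∧ x ∉ A ∧ y ∉ A)}

theorem E_anti {n m : ℕ} {A B : Set L} (h : n ≤ m) (h' : A ⊆ B) : E m B ⊆ E n A := by
  rintro p (hp | ⟨i, j, hp, hi, hj⟩ | ⟨x, y, hp, hx, hy⟩)
  · exact Or.inl hp
  · exact Or.inr (Or.inl ⟨i, j, hp, h.trans hi, h.trans hj⟩)
  · exact Or.inr (Or.inr ⟨x, y, hp, fun hh => hx (h' hh), fun hh => hy (h' hh)⟩)

theorem E_symm (n : ℕ) (A : Set L) (x y : X) (h : (x, y) ∈ E n A) : (y, x) ∈ E n A := by
  rcases h with hp | ⟨i, j, hp, hi, hj⟩ | ⟨a, b, hp, hx, hy⟩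
  · exact Or.inl hp.symm
  · simp only [Prod.mk.injEq] at hp
    exact Or.inr (Or.inl ⟨j, i, by rw [hp.1, hp.2], hj, hi⟩)
  · simp only [Prod.mk.injEq] at hp
    exact Or.inr (Or.inr ⟨b, a, by rw [hp.1, hp.2], hy, hx⟩)

theorem E_trans (n : ℕ) (A : Set L) (x y z : X) (h : (x, y) ∈ E n A) (h' : (y, z) ∈ E n A) :
    (x, z) ∈ E n A := by
  rcases h with hp | ⟨i, j, hp, hi, hj⟩ | ⟨a, b, hp, hx, hy⟩
  · simp only at hp
    rw [hp]; exact h'
  · simp only [Prod.mk.injEq] at hp
    obtain ⟨rfl, rfl⟩ := hp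
    rcases h' with hp | ⟨i', j', hp, hi', hj'⟩ | ⟨a, b, hp, hx, hy⟩
    · simp only at hp
      rw [← hp]; exact Or.inr (Or.inl ⟨i, j, rfl, hi, hj⟩)
    · simp only [Prod.mk.injEq] at hp
      obtain ⟨-, rfl⟩ := hp
      exact Or.inr (Or.inl ⟨i, j', rfl, hi, hj'⟩)
    · simp at hp
  · simp only [Prod.mk.injEq] at hp
    obtain ⟨rfl, rfl⟩ := hp
    rcases h' with hp | ⟨i', j', hp, hi', hj'⟩ | ⟨a', b', hp, hx', hy'⟩
    · simp only at hp
      rw [← hp]; exact Or.inr (Or.inr ⟨a, b, rfl, hx, hy⟩)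
    · simp at hp
    · simp only [Prod.mk.injEq] at hp
      obtain ⟨-, rfl⟩ := hp
      exact Or.inr (Or.inr ⟨a, b', rfl, hx, hy'⟩)

/-- The filter basis of the uniformity. -/
def basis : FilterBasis (X × X) where
  sets := {V | ∃ (n : ℕ) (A : Set L), A.Countable ∧ V = E n A}
  nonempty := ⟨_, 0, ∅, Set.countable_empty, rfl⟩
  inter_sets := by
    rintro _ _ ⟨n, A, hA, rfl⟩ ⟨m, B, hB, rfl⟩
    exact ⟨_, ⟨max n m, A ∪ B, hA.union hB, rfl⟩, Set.subset_inter
      (E_anti (le_max_left _ _) Set.subset_union_left)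
      (E_anti (le_max_right _ _) Set.subset_union_right)⟩

theorem mem_basis {V : Set (X × X)} :
    V ∈ basis ↔ ∃ (n : ℕ) (A : Set L), A.Countable ∧ V = E n A := Iff.rfl

/-- The uniformity of the example. -/
@[reducible] def unif : UniformSpace X := UniformSpace.ofCore (UniformSpace.Core.mkOfBasis basis
  (by
    rintro _ ⟨n, A, hA, rfl⟩ x
    exact Or.inl rfl)
  (by
    rintro _ ⟨n, A, hA, rfl⟩
    exact ⟨_, ⟨n, A, hA, rfl⟩, fun p hp => E_symm n A p.1 p.2 hp⟩)
  (by
    rintro _ ⟨n, A, hA, rfl⟩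
    refine ⟨_, ⟨n, A, hA, rfl⟩, ?_⟩
    rintro ⟨x, z⟩ ⟨y, hxy, hyz⟩
    exact E_trans n A x y z hxy hyz))

attribute [local instance] unif

theorem mem_unif {V : Set (X × X)} :
    V ∈ 𝓤 X ↔ ∃ (n : ℕ) (A : Set L), A.Countable ∧ E n A ⊆ V := by
  have : V ∈ 𝓤 X ↔ ∃ s ∈ basis, s ⊆ V := FilterBasis.mem_filter_iff basis
  rw [this]
  constructor
  · rintro ⟨_, ⟨n, A, hA, rfl⟩, h⟩
    exact ⟨n, A, hA, h⟩
  · rintro ⟨n, A, hA, h⟩
    exact ⟨_, ⟨n, A, hA, rfl⟩, h⟩

theorem E_mem (n : ℕ) {A : Set L} (hA : A.Countable) : E n A ∈ 𝓤 X :=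
  mem_unif.2 ⟨n, A, hA, subset_rfl⟩

theorem separated (x y : X) (h : ∀ V ∈ 𝓤 X, (x, y) ∈ V) : x = y := by
  by_contra hne
  rcases x with i | a
  · rcases h _ (E_mem (i + 1) Set.countable_empty) with hp | ⟨i', j, hp, hi, hj⟩ | ⟨a, b, hp, -, -⟩
    · exact hne hp
    · simp only [Prod.mk.injEq, Sum.inl.injEq] at hp
      omega
    · simp at hp
  · rcases h _ (E_mem 0 (Set.countable_singleton a)) with hp | ⟨i', j, hp, hi, hj⟩ |
      ⟨a', b, hp, h1, -⟩
    · exact hne hp
    · simp at hp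
    · simp only [Prod.mk.injEq, Sum.inr.injEq] at hp
      exact h1 (by rw [← hp.1]; rfl)

theorem narrow : OmegaNarrow X := by
  intro V hV
  obtain ⟨n, A, hA, h⟩ := mem_unif.1 hV
  by_cases hne : ∃ a : L, a ∉ A
  · obtain ⟨a₀, ha₀⟩ := hne
    refine ⟨Set.range (Sum.inl : ℕ → X) ∪ Sum.inr '' A ∪ {Sum.inr a₀},
      ((Set.countable_range _).union (hA.image _)).union (Set.countable_singleton _), ?_⟩
    rintro (i | a)
    · exact ⟨Sum.inl i, Or.inl (Or.inl ⟨i, rfl⟩), h (Or.inl rfl)⟩
    · by_cases ha : a ∈ A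
      · exact ⟨Sum.inr a, Or.inl (Or.inr ⟨a, ha, rfl⟩), h (Or.inl rfl)⟩
      · exact ⟨Sum.inr a₀, Or.inr rfl, h (Or.inr (Or.inr ⟨a₀, a, rfl, ha₀, ha⟩))⟩
  · push Not at hne
    refine ⟨Set.range (Sum.inl : ℕ → X) ∪ Sum.inr '' A,
      (Set.countable_range _).union (hA.image _), ?_⟩
    rintro (i | a)
    · exact ⟨Sum.inl i, Or.inl ⟨i, rfl⟩, h (Or.inl rfl)⟩
    · exact ⟨Sum.inr a, Or.inr ⟨a, hne a, rfl⟩, h (Or.inl rfl)⟩

/-! ### The permutation group with the topology of pointwise convergence -/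

/-- The pointwise stabiliser of a finite set. -/
def stab (T : Type) (F : Finset T) : Set (Equiv.Perm T) := {g | ∀ t ∈ F, g t = t}

open Classical in
/-- The stabilisers of finite sets form a basis of neighbourhoods of the identity. -/
@[reducible] noncomputable def permBasis (T : Type) : GroupFilterBasis (Equiv.Perm T) where
  sets := Set.range (stab T)
  nonempty := ⟨_, ∅, rfl⟩
  inter_sets := by
    rintro _ _ ⟨F, rfl⟩ ⟨F', rfl⟩
    exact ⟨_, ⟨F ∪ F', rfl⟩, fun g hg => ⟨fun t ht => hg t (Finset.mem_union_left _ ht),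
      fun t ht => hg t (Finset.mem_union_right _ ht)⟩⟩
  one' := by
    rintro _ ⟨F, rfl⟩ t _
    rfl
  mul' := by
    rintro _ ⟨F, rfl⟩
    refine ⟨_, ⟨F, rfl⟩, ?_⟩
    rintro _ ⟨g, hg, g', hg', rfl⟩ t ht
    simp only [Equiv.Perm.mul_apply]
    rw [hg' t ht, hg t ht]
  inv' := by
    rintro _ ⟨F, rfl⟩
    refine ⟨_, ⟨F, rfl⟩, ?_⟩
    intro g hg t ht
    rw [Equiv.Perm.inv_eq_iff_eq]
    exact (hg t ht).symm
  conj' := by
    rintro g₀ _ ⟨F, rfl⟩
    refine ⟨_, ⟨F.image (g₀⁻¹ : Equiv.Perm T), rfl⟩, ?_⟩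
    intro g hg t ht
    simp only [Equiv.Perm.mul_apply]
    rw [hg _ (Finset.mem_image_of_mem _ ht)]
    simp

/-! ### The two facts about neighbourhoods of the identity of the free topological group -/

/-- `Good W x n`: the conjugates by `x` of all `y⁻¹ z` with `y, z ≥ n` lie in `W`. -/
def Good (W : Set (FreeGroup X)) (x : L) (n : ℕ) : Prop :=
  ∀ y z : ℕ, n ≤ y → n ≤ z →
    (FreeGroup.of (Sum.inr x : X))⁻¹ * ((FreeGroup.of (Sum.inl y : X))⁻¹ *
      FreeGroup.of (Sum.inl z : X)) * FreeGroup.of (Sum.inr x : X) ∈ W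

theorem exists_good {t : TopologicalSpace (FreeGroup X)} (ht : IsFreeTopologicalGroup X t)
    {W : Set (FreeGroup X)} (hW : W ∈ @nhds _ t 1) (x : L) : ∃ n, Good W x n := by
  let _ := t
  have := ht.isTopologicalGroup
  have hc : Continuous (fun w : FreeGroup X =>
      (FreeGroup.of (Sum.inr x : X))⁻¹ * w * FreeGroup.of (Sum.inr x : X)) := by fun_prop
  have h1 : (fun w : FreeGroup X =>
      (FreeGroup.of (Sum.inr x : X))⁻¹ * w * FreeGroup.of (Sum.inr x : X)) ⁻¹' W ∈ 𝓝 1 := by
    apply hc.continuousAt.preimage_mem_nhds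
    simpa using hW
  obtain ⟨V, hV, h⟩ := ht.uc_of _ h1
  obtain ⟨n, A, hA, hE⟩ := mem_unif.1 hV
  exact ⟨n, fun y z hy hz => (h _ _ (hE (Or.inr (Or.inl ⟨y, z, rfl, hy, hz⟩)))).1⟩

/-- The points moved by the permutations. -/
abbrev T : Type := Option (ℕ × Bool)

open Classical in
/-- The permutations assigned to the elements of `X`. -/
noncomputable def act (h : L → ℕ) : X → Equiv.Perm T
  | Sum.inl m => Equiv.swap (some (m, false)) (some (m, true))
  | Sum.inr x => if h x = 0 then 1 else Equiv.swap none (some (h x, false))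

theorem act_uc (h : L → ℕ) (hh : {x | h x ≠ 0}.Countable) :
    TwoSidedUC (permBasis T).topology (act h) := by
  let _ := (permBasis T).topology
  intro W hW
  obtain ⟨_, ⟨F, rfl⟩, hF⟩ := (permBasis T).nhds_one_hasBasis.mem_iff.1 hW
  -- a bound for the first coordinates of the elements of `F`
  obtain ⟨n, hn⟩ : ∃ n, ∀ t ∈ F, ∀ m b, t = some (m, b) → m < n := by
    clear hF
    induction F using Finset.induction_on with
    | empty => exact ⟨0, fun t ht => by simp at ht⟩
    | insert a s ha ih =>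
      obtain ⟨n, hn⟩ := ih
      rcases a with _ | ⟨k, c⟩
      · refine ⟨n, fun t ht m b e => ?_⟩
        rw [Finset.mem_insert] at ht
        rcases ht with ht | ht
        · rw [ht] at e; cases e
        · exact hn t ht m b e
      · refine ⟨max n (k + 1), fun t ht m b e => ?_⟩
        rw [Finset.mem_insert] at ht
        rcases ht with ht | ht
        · rw [ht, Option.some.injEq, Prod.mk.injEq] at e
          omega
        · exact lt_max_of_lt_left (hn t ht m b e)
  refine ⟨E n {x | h x ≠ 0}, E_mem n hh, ?_⟩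
  rintro x y hxy
  rcases hxy with hp | ⟨i, j, hp, hi, hj⟩ | ⟨a, b, hp, hx, hy⟩
  · simp only at hp
    rw [hp, inv_mul_cancel, mul_inv_cancel]
    exact ⟨mem_of_mem_nhds hW, mem_of_mem_nhds hW⟩
  · simp only [Prod.mk.injEq] at hp
    obtain ⟨rfl, rfl⟩ := hp
    have key : ∀ m, n ≤ m → ∀ t ∈ F, act h (Sum.inl m) t = t := by
      intro m hm t ht
      apply Equiv.swap_apply_of_ne_of_ne
      · intro e
        have := hn t ht m false e
        omega
      · intro e
        have := hn t ht m true e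
        omega
    constructor
    · apply hF
      intro t ht
      rw [Equiv.Perm.mul_apply, Equiv.Perm.inv_eq_iff_eq, key j hj t ht, key i hi t ht]
    · apply hF
      intro t ht
      have : (act h (Sum.inl j))⁻¹ t = t := by
        rw [Equiv.Perm.inv_eq_iff_eq, key j hj t ht]
      rw [Equiv.Perm.mul_apply, this, key i hi t ht]
  · simp only [Prod.mk.injEq] at hp
    obtain ⟨rfl, rfl⟩ := hp
    have ea : act h (Sum.inr a) = 1 := if_pos (not_not.1 hx)
    have eb : act h (Sum.inr b) = 1 := if_pos (not_not.1 hy)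
    rw [ea, eb]
    simp only [inv_one, mul_one, and_self]
    exact mem_of_mem_nhds hW

theorem exists_bad {t : TopologicalSpace (FreeGroup X)} (ht : IsFreeTopologicalGroup X t)
    (h : L → ℕ) (hh : {x | h x ≠ 0}.Countable) :
    ∃ W ∈ @nhds _ t 1, ∀ x n, Good W x n → h x ≤ n := by
  let _ := (permBasis T).topology
  have := (permBasis T).isTopologicalGroup
  have hc := ht.extend (Equiv.Perm T) (act h) (act_uc h hh)
  let _ := t
  refine ⟨FreeGroup.lift (act h) ⁻¹' stab T {none}, ?_, ?_⟩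
  · apply hc.continuousAt.preimage_mem_nhds
    rw [map_one]
    exact (permBasis T).mem_nhds_one ⟨_, rfl⟩
  · intro x n hg
    by_contra hlt
    push Not at hlt
    have hx : h x ≠ 0 := by omega
    have := hg (h x) (h x + 1) hlt.le (by omega)
    have this := this none (by simp)
    simp only [map_mul, map_inv, FreeGroup.lift_apply_of] at this
    have ex : act h (Sum.inr x) = Equiv.swap none (some (h x, false)) := if_neg hx
    rw [ex] at this
    simp only [act, Equiv.Perm.mul_apply, Equiv.swap_inv, Equiv.swap_apply_left] at this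
    rw [Equiv.swap_apply_of_ne_of_ne (a := (some (h x + 1, false) : T)) (by simp) (by simp),
      Equiv.swap_apply_left, Equiv.swap_apply_of_ne_of_ne (by simp) (by simp)] at this
    simp at this

/-! ### The free topological group of the example is Hausdorff -/

theorem exists_letters (w : FreeGroup X) : ∃ S : Set X, S.Finite ∧
    ∀ r : X → X, (∀ x ∈ S, r x = x) → FreeGroup.lift (fun x => FreeGroup.of (r x)) w = w := by
  induction w using FreeGroup.induction_on with
  | C1 => exact ⟨∅, Set.finite_empty, fun r _ => map_one _⟩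
  | of x =>
    refine ⟨{x}, Set.finite_singleton x, fun r hr => ?_⟩
    rw [FreeGroup.lift_apply_of, hr x rfl]
  | inv_of x _ =>
    refine ⟨{x}, Set.finite_singleton x, fun r hr => ?_⟩
    rw [map_inv, FreeGroup.lift_apply_of, hr x rfl]
  | mul x y hx hy =>
    obtain ⟨S, hS, h1⟩ := hx
    obtain ⟨S', hS', h2⟩ := hy
    refine ⟨S ∪ S', hS.union hS', fun r hr => ?_⟩
    rw [map_mul, h1 r (fun z hz => hr z (Or.inl hz)), h2 r (fun z hz => hr z (Or.inr hz))]

theorem discrete_nhds {t : TopologicalSpace (FreeGroup X)} (ht : IsFreeTopologicalGroup X t)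
    {H : Type} [Group H] (f : X → H) {V : Set (X × X)} (hV : V ∈ 𝓤 X)
    (hf : ∀ x y, (x, y) ∈ V → f x = f y) : FreeGroup.lift f ⁻¹' {1} ∈ @nhds _ t 1 := by
  let _ : TopologicalSpace H := ⊥
  have : DiscreteTopology H := ⟨rfl⟩
  have hc := ht.extend H f (by
    intro W hW
    refine ⟨V, hV, fun x y hxy => ?_⟩
    rw [hf x y hxy, inv_mul_cancel, mul_inv_cancel]
    exact ⟨mem_of_mem_nhds hW, mem_of_mem_nhds hW⟩)
  let _ := t
  exact ((isOpen_discrete {(1 : H)}).preimage hc).mem_nhds (by simp)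

theorem free_t2 {t : TopologicalSpace (FreeGroup X)} (ht : IsFreeTopologicalGroup X t) :
    @T2Space _ t := by
  classical
  let _ := t
  have := ht.isTopologicalGroup
  refine IsTopologicalGroup.t2Space_of_one_sep ?_
  intro w hw
  obtain ⟨S, hS, hr⟩ := exists_letters w
  obtain ⟨n, hn⟩ : ∃ n, ∀ m : ℕ, (Sum.inl m : X) ∈ S → m < n := by
    have hf : {m : ℕ | (Sum.inl m : X) ∈ S}.Finite :=
      hS.preimage (Sum.inl_injective.injOn)
    obtain ⟨n, hn⟩ := hf.bddAbove
    exact ⟨n + 1, fun m hm => Nat.lt_succ_of_le (hn hm)⟩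
  let A : Set L := {a | (Sum.inr a : X) ∈ S}
  have hA : A.Countable := (hS.preimage (Sum.inr_injective.injOn)).countable
  let r : X → X := fun x => if x ∈ S then x else Sum.inl 0
  have hrE : ∀ x y, (x, y) ∈ E n A → r x = r y := by
    intro x y hxy
    rcases hxy with hp | ⟨i, j, hp, hi, hj⟩ | ⟨a, b, hp, hx, hy⟩
    · exact congrArg r hp
    · simp only [Prod.mk.injEq] at hp
      obtain ⟨rfl, rfl⟩ := hp
      have h1 : (Sum.inl i : X) ∉ S := fun h => by have := hn i h; omega
      have h2 : (Sum.inl j : X) ∉ S := fun h => by have := hn j h; omega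
      simp only [r, if_neg h1, if_neg h2]
    · simp only [Prod.mk.injEq] at hp
      obtain ⟨rfl, rfl⟩ := hp
      have h1 : (Sum.inr a : X) ∉ S := hx
      have h2 : (Sum.inr b : X) ∉ S := hy
      simp only [r, if_neg h1, if_neg h2]
  refine ⟨_, discrete_nhds ht (fun x => FreeGroup.of (r x)) (E_mem n hA)
    (fun x y hxy => congrArg FreeGroup.of (hrE x y hxy)), ?_⟩
  intro h
  have h' : FreeGroup.lift (fun x => FreeGroup.of (r x)) w = 1 := h
  rw [hr r (fun x hx => if_pos hx)] at h'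
  exact hw h'

/-! ### The main theorem -/

/-- The number of the pigeonholes is smaller than the number of pigeons. -/
theorem exists_fiber (F : L → Y) :
    ∃ (β : Y) (x : ℕ → L), Function.Injective x ∧ ∀ i, F (x i) = β := by
  obtain ⟨β, hβ⟩ := Cardinal.exists_infinite_fiber' F
    (by rw [Cardinal.mk_set]; exact Cardinal.cantor _)
  exact ⟨β, fun i => (Infinite.natEmbedding (F ⁻¹' {β}) i).1,
    fun i j hij => (Infinite.natEmbedding (F ⁻¹' {β})).injective (Subtype.ext hij),
    fun i => (Infinite.natEmbedding (F ⁻¹' {β}) i).2⟩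

theorem not_tukey {t : TopologicalSpace (FreeGroup X)} (ht : IsFreeTopologicalGroup X t) :
    ¬ TukeyLE (NhdsOne (FreeGroup X) t) ((ℕ → ℕ) × (ℕ → Entourages X)) := by
  classical
  rintro ⟨φ, hφ⟩
  -- `φ` is convergent: every neighbourhood of the identity is eventually refined
  have conv : ∀ W : NhdsOne (FreeGroup X) t, ∃ p, ∀ q, p ≤ q → W ≤ φ q := by
    intro W
    by_contra hcon
    push Not at hcon
    choose q hq hq' using hcon
    have hcof : IsCofinal (Set.range q) := fun p => ⟨q p, ⟨p, rfl⟩, hq p⟩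
    obtain ⟨_, ⟨_, ⟨p, rfl⟩, rfl⟩, hle⟩ := hφ _ hcof W
    exact hq' p hle
  choose ψ hψ using conv
  -- the neighbourhoods associated with countably supported functions
  have hbad := fun h : {h : L → ℕ // {x | h x ≠ 0}.Countable} => exists_bad ht h.1 h.2
  choose W hWn hW using hbad
  let p := fun h => ψ (OrderDual.toDual ⟨W h, hWn h⟩)
  have hp : ∀ h q, p h ≤ q → (OrderDual.ofDual (φ q)).1 ⊆ W h := fun h q hq => hψ _ q hq
  -- basic entourages below the second coordinate of `p h`
  have hE : ∀ h (i : ℕ), ∃ (n : ℕ) (A : Set L), A.Countable ∧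
      E n A ⊆ (OrderDual.ofDual ((p h).2 i)).1 := fun h i => mem_unif.1 (OrderDual.ofDual ((p h).2 i)).2.1
  choose N A hA hNA using hE
  -- the bound
  have hbound : ∀ (g : (ℕ → ℕ) × (ℕ → ℕ)) (x : L), ∃ b : ℕ, ∀ h : {h : L → ℕ // {x | h x ≠ 0}.Countable},
      (p h).1 ≤ g.1 → N h ≤ g.2 → h.1 x ≤ b := by
    intro g x
    by_contra hcon
    push Not at hcon
    choose h h1 h2 h3 using hcon
    have hcount : (⋃ (b : ℕ) (i : ℕ), A (h b) i).Countable :=
      Set.countable_iUnion fun b => Set.countable_iUnion fun i => hA _ _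
    let q : (ℕ → ℕ) × (ℕ → Entourages X) := (g.1, fun i => OrderDual.toDual
      ⟨E (g.2 i) (⋃ (b : ℕ) (i : ℕ), A (h b) i), E_mem _ hcount, E_symm _ _⟩)
    have hq : ∀ b, p (h b) ≤ q := by
      intro b
      refine ⟨h1 b, fun i => ?_⟩
      show E (g.2 i) (⋃ (b : ℕ) (i : ℕ), A (h b) i) ⊆ (OrderDual.ofDual ((p (h b)).2 i)).1
      refine subset_trans (E_anti (h2 b i) ?_) (hNA (h b) i)
      exact subset_trans (Set.subset_iUnion (fun i => A (h b) i) i)
        (Set.subset_iUnion (fun b => ⋃ i, A (h b) i) b)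
    obtain ⟨n, hn⟩ := exists_good ht (OrderDual.ofDual (φ q)).2 x
    have := hW (h n) x n (fun y z hy hz => hp (h n) q (hq n) (hn y z hy hz))
    exact absurd (h3 n) (not_lt.2 this)
  choose b hb using hbound
  obtain ⟨β, x, hx, hβ⟩ := exists_fiber (fun x g => b g x)
  -- the diagonal function
  let h : L → ℕ := fun y => if hy : ∃ i, x i = y then hy.choose else 0
  have hhx : ∀ i, h (x i) = i := by
    intro i
    have hy : ∃ j, x j = x i := ⟨i, rfl⟩
    simp only [h, dif_pos hy]
    exact hx hy.choose_spec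
  have hcount : {y | h y ≠ 0}.Countable := by
    refine (Set.countable_range x).mono ?_
    intro y hy
    by_contra hne
    exact hy (dif_neg hne)
  have key := fun i => hb ((p ⟨h, hcount⟩).1, N ⟨h, hcount⟩) (x i) ⟨h, hcount⟩ le_rfl le_rfl
  have e : ∀ i, b ((p ⟨h, hcount⟩).1, N ⟨h, hcount⟩) (x i) = β ((p ⟨h, hcount⟩).1, N ⟨h, hcount⟩) :=
    fun i => congrFun (hβ i) _
  have := key (β ((p ⟨h, hcount⟩).1, N ⟨h, hcount⟩) + 1)
  rw [e] at this
  simp only [hhx] at this
  omega

/-- **Theorem.** There is an `ω`-narrow (Hausdorff) uniform space `X` such that the directed set of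
neighbourhoods of the identity in the free topological group `F(X)` is not Tukey reducible to
`ω^ω × 𝓤^ω`. -/
theorem result : ∃ (X : Type) (_ : UniformSpace X),
    (∀ x y : X, (∀ V ∈ 𝓤 X, (x, y) ∈ V) → x = y) ∧ OmegaNarrow X ∧
    (∃ t : TopologicalSpace (FreeGroup X), IsFreeTopologicalGroup X t ∧ @T2Space _ t) ∧
    ∀ t : TopologicalSpace (FreeGroup X), IsFreeTopologicalGroup X t →
      ¬ TukeyLE (NhdsOne (FreeGroup X) t) ((ℕ → ℕ) × (ℕ → Entourages X)) := by
  refine ⟨X, unif, separated, narrow, ?_, fun t ht => not_tukey ht⟩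
  obtain ⟨t, ht⟩ := exists_free X
  exact ⟨t, ht, free_t2 ht⟩

end Pool.Agent.Results.MP_849c2a_gt.NotTukeyBelow
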